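import Mathlib

set_option autoImplicit false

namespace Pool.Agent.MP_181f73_al.H78

open Finset

abbrev Wd := List (Fin 2)

/-- Average over all words of length `n` in two letters. -/
noncomputable def Av : ℕ → (Wd → ℝ) → ℝ
  | 0, f => f []
  | n + 1, f => (Av n (fun l => f (0 :: l)) + Av n (fun l => f (1 :: l))) / 2

lemma Av_mono (n : ℕ) : ∀ {f g : Wd → ℝ}, (∀ l, l.length = n → f l ≤ g l) → Av n f ≤ Av n g := by
  induction n with
  | zero => intro f g h; exact h [] rfl
  | succ n ih =>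
    intro f g h
    have h0 := ih (f := fun l => f (0 :: l)) (g := fun l => g (0 :: l))
      (fun l hl => h _ (by simp [hl]))
    have h1 := ih (f := fun l => f (1 :: l)) (g := fun l => g (1 :: l))
      (fun l hl => h _ (by simp [hl]))
    simp only [Av]; linarith

lemma Av_congr (n : ℕ) {f g : Wd → ℝ} (h : ∀ l, l.length = n → f l = g l) : Av n f = Av n g :=
  le_antisymm (Av_mono n fun l hl => (h l hl).le) (Av_mono n fun l hl => (h l hl).ge)

lemma Av_const (n : ℕ) (c : ℝ) : Av n (fun _ => c) = c := by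
  induction n with
  | zero => rfl
  | succ n ih => simp only [Av, ih]; ring

lemma Av_nonneg (n : ℕ) {f : Wd → ℝ} (h : ∀ l, 0 ≤ f l) : 0 ≤ Av n f := by
  have := Av_mono n (f := fun _ => 0) (g := f) (fun l _ => h l)
  rwa [Av_const] at this

lemma Av_le (n : ℕ) {f : Wd → ℝ} {c : ℝ} (h : ∀ l, l.length = n → f l ≤ c) : Av n f ≤ c := by
  have := Av_mono n (f := f) (g := fun _ => c) h
  rwa [Av_const] at this

lemma Av_add (n : ℕ) : ∀ f g : Wd → ℝ, Av n (fun l => f l + g l) = Av n f + Av n g := by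
  induction n with
  | zero => intro f g; rfl
  | succ n ih => intro f g; simp only [Av, ih]; ring

lemma Av_mul (n : ℕ) (c : ℝ) : ∀ f : Wd → ℝ, Av n (fun l => c * f l) = c * Av n f := by
  induction n with
  | zero => intro f; rfl
  | succ n ih => intro f; simp only [Av, ih]; ring

lemma Av_sum {ι : Type} (n : ℕ) (s : Finset ι) (f : ι → Wd → ℝ) :
    Av n (fun l => ∑ i ∈ s, f i l) = ∑ i ∈ s, Av n (f i) := by
  classical
  induction s using Finset.induction_on with
  | empty => simp [Av_const]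
  | insert a s ha ih => simp only [sum_insert ha, Av_add, ih]

lemma Av_append (m n : ℕ) : ∀ f : Wd → ℝ,
    Av (m + n) f = Av m (fun u => Av n (fun v => f (u ++ v))) := by
  induction m with
  | zero => intro f; simp [Av]
  | succ m ih =>
    intro f
    rw [show m + 1 + n = (m + n) + 1 by ring]
    simp only [Av, ih, List.cons_append]

lemma Av_comm (m n : ℕ) : ∀ f : Wd → Wd → ℝ,
    Av m (fun u => Av n (fun v => f u v)) = Av n (fun v => Av m (fun u => f u v)) := by
  induction m with
  | zero => intro f; rfl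
  | succ m ih =>
    intro f
    simp only [Av, ih, div_eq_inv_mul, Av_mul, Av_add]

lemma Av_cons_le (n : ℕ) (c : Fin 2) (f : Wd → ℝ) (h : ∀ l, 0 ≤ f l) :
    Av n (fun l => f (c :: l)) ≤ 2 * Av (n + 1) f := by
  have h0 := Av_nonneg n (f := fun l => f (0 :: l)) (fun l => h _)
  have h1 := Av_nonneg n (f := fun l => f (1 :: l)) (fun l => h _)
  simp only [Av]
  fin_cases c
  · simp only [Fin.zero_eta]; linarith
  · simp only [Fin.mk_one]; linarith

lemma Av_getElem? (f : Option (Fin 2) → ℝ) : ∀ (i n : ℕ), i < n →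
    Av n (fun l => f l[i]?) = (f (some 0) + f (some 1)) / 2
  | _, 0, h => by omega
  | 0, n + 1, _ => by simp [Av, Av_const]
  | i + 1, n + 1, h => by
    have := Av_getElem? f i n (by omega)
    simp only [Av, List.getElem?_cons_succ, this]; ring

lemma Av_le_of_sum (n : ℕ) : ∀ (f : Wd → ℝ), ∃ T : Finset Wd, (∀ l ∈ T, l.length = n) ∧
    Av n f = (∑ l ∈ T, f l) / 2 ^ n := by
  classical
  have : ∃ T : Finset Wd, (∀ l ∈ T, l.length = n) ∧ ∀ f : Wd → ℝ, Av n f = (∑ l ∈ T, f l) / 2 ^ n := by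
    induction n with
    | zero => exact ⟨{[]}, by simp, fun f => by simp [Av]⟩
    | succ n ih =>
      obtain ⟨T, h1, h2⟩ := ih
      refine ⟨T.image (List.cons 0) ∪ T.image (List.cons 1), ?_, fun f => ?_⟩
      · intro l hl
        rcases mem_union.1 hl with h | h <;> obtain ⟨a, ha, rfl⟩ := mem_image.1 h <;>
          simp [h1 a ha]
      · rw [sum_union, sum_image (fun a _ b _ h => by simpa using h),
          sum_image (fun a _ b _ h => by simpa using h)]
        · simp only [Av, h2]; rw [pow_succ]; field_simp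
        · rw [disjoint_left]
          intro l h h'
          obtain ⟨a, _, rfl⟩ := mem_image.1 h
          obtain ⟨b, _, e⟩ := mem_image.1 h'
          simp at e
  obtain ⟨T, h1, h2⟩ := this
  exact fun f => ⟨T, h1, h2 f⟩

/-- Disjoint blocks. -/
lemma sum_blocks (J M : ℕ) (Dj : ℕ → Finset ℕ) (lab : ℕ → ℕ) (hl : ∀ j, ∀ d ∈ Dj j, lab d = j)
    (hM : ∀ j < J, ∀ d ∈ Dj j, d < M) (f : ℕ → ℝ) (hf : ∀ d, 0 ≤ f d) :
    ∑ j ∈ range J, ∑ d ∈ Dj j, f d ≤ ∑ d ∈ range M, f d := by
  rw [← sum_biUnion]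
  · apply sum_le_sum_of_subset_of_nonneg
    · intro d hd
      obtain ⟨j, hj, hd⟩ := mem_biUnion.1 hd
      exact mem_range.2 (hM j (mem_range.1 hj) d hd)
    · intro d _ _; exact hf d
  · intro i _ j _ hij
    rw [Function.onFun, disjoint_left]
    intro d h h'
    exact hij ((hl i d h).symm.trans (hl j d h'))

lemma sum_shift (N L : ℕ) (hL : L ≤ N) (f : ℕ → ℝ) (hf : ∀ d, 0 ≤ f d) :
    ∑ n ∈ Ico N (2 * N), f (n + L) ≤ ∑ n ∈ Ico N (3 * N), f n := by
  rw [sum_Ico_add']
  apply sum_le_sum_of_subset_of_nonneg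
  · exact Ico_subset_Ico (by omega) (by omega)
  · intro d _ _; exact hf d

end Pool.Agent.MP_181f73_al.H78
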