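import Pool.Agent.MP_181f73_al.H78.Words

set_option autoImplicit false

namespace Pool.Agent.MP_181f73_al.H78

open Finset FreeGroup

abbrev G := FreeGroup (Fin 2)

/-- `x` and `y` are nontrivial and start with the same letter. -/
def Eqv (x y : G) : Prop := 1 ≤ cp x.toWord y.toWord

instance (x y : G) : Decidable (Eqv x y) := by unfold Eqv; infer_instance

lemma Eqv.symm {x y : G} (h : Eqv x y) : Eqv y x := by unfold Eqv at *; rwa [cp_comm]

lemma Eqv.trans {x y z : G} (h : Eqv x y) (h' : Eqv y z) : Eqv x z := by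
  unfold Eqv at *
  have := cp_ultra x.toWord y.toWord z.toWord
  omega

noncomputable def EG (x y z : G) : ℝ := E x.toWord y.toWord z.toWord

noncomputable def psi (x y z : G) : ℝ := if Eqv x y ∧ Eqv y z then EG x y z else 0

noncomputable def phi (x0 x1 x2 x3 : G) : ℝ :=
  psi x1 x2 x3 - psi x0 x2 x3 + psi x0 x1 x3 - psi x0 x1 x2

noncomputable def trm (x0 x1 x2 x3 : G) : ℝ :=
  if Eqv x1 x2 ∧ Eqv x2 x3 ∧ ¬ Eqv x0 x1 then EG x1 x2 x3 ^ 2 else 0

lemma trm_nonneg (x0 x1 x2 x3 : G) : 0 ≤ trm x0 x1 x2 x3 := by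
  unfold trm; split_ifs <;> positivity

lemma phi_sq_le (x0 x1 x2 x3 : G) :
    phi x0 x1 x2 x3 ^ 2 ≤
      trm x0 x1 x2 x3 + trm x1 x0 x2 x3 + trm x2 x0 x1 x3 + trm x3 x0 x1 x2 := by
  have n0 := trm_nonneg x0 x1 x2 x3
  have n1 := trm_nonneg x1 x0 x2 x3
  have n2 := trm_nonneg x2 x0 x1 x3
  have n3 := trm_nonneg x3 x0 x1 x2
  by_cases h01 : Eqv x0 x1
  · by_cases h12 : Eqv x1 x2
    · by_cases h23 : Eqv x2 x3
      · have h02 := h01.trans h12
        have h13 := h12.trans h23
        have : phi x0 x1 x2 x3 = 0 := by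
          simp only [phi, psi, h01, h12, h23, h02, h13, and_self, if_true, EG, E]; ring
        rw [this]; nlinarith
      · have h13 : ¬ Eqv x1 x3 := fun h => h23 (h12.symm.trans h)
        have h30 : ¬ Eqv x3 x0 := fun h => h23 ((h.trans (h01.trans h12)).symm)
        have e : phi x0 x1 x2 x3 ^ 2 = trm x3 x0 x1 x2 := by
          simp [phi, psi, trm, h01, h12, h23, h13, h30]
        linarith
    · have h02 : ¬ Eqv x0 x2 := fun h => h12 (h01.symm.trans h)
      have h20 : ¬ Eqv x2 x0 := fun h => h02 h.symm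
      have e : phi x0 x1 x2 x3 ^ 2 = trm x2 x0 x1 x3 := by
        by_cases h13 : Eqv x1 x3 <;> simp [phi, psi, trm, h01, h12, h02, h13, h20]
      linarith
  · have h10 : ¬ Eqv x1 x0 := fun h => h01 h.symm
    by_cases h12 : Eqv x1 x2
    · have h02 : ¬ Eqv x0 x2 := fun h => h01 (h.trans h12.symm)
      have e : phi x0 x1 x2 x3 ^ 2 = trm x0 x1 x2 x3 := by
        by_cases h23 : Eqv x2 x3 <;> simp [phi, psi, trm, h01, h12, h02, h23]
      linarith
    · have e : phi x0 x1 x2 x3 ^ 2 = trm x1 x0 x2 x3 := by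
        by_cases h02 : Eqv x0 x2 <;> by_cases h23 : Eqv x2 x3 <;>
          simp [phi, psi, trm, h01, h12, h02, h23, h10]
      linarith

lemma toWord_inv_mul (x y : G) (h : cp x.toWord y.toWord = 0) :
    (x⁻¹ * y).toWord = invRev x.toWord ++ y.toWord := by
  rw [toWord_mul, toWord_inv]
  apply FreeGroup.IsReduced.reduce_eq
  have h1 : FreeGroup.IsReduced (invRev x.toWord) := by rw [← toWord_inv]; exact isReduced_toWord
  have h2 : FreeGroup.IsReduced y.toWord := isReduced_toWord
  unfold FreeGroup.IsReduced at *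
  rw [List.isChain_append]
  refine ⟨h1, h2, ?_⟩
  intro a ha b hb
  generalize x.toWord = u at *
  generalize y.toWord = v at *
  cases u with
  | nil => simp [invRev] at ha
  | cons c u =>
    cases v with
    | nil => simp at hb
    | cons c' v =>
      simp only [List.head?_cons, Option.mem_def, Option.some.injEq] at hb
      subst hb
      simp [invRev] at ha
      subst ha
      rw [cp_cons] at h
      have hne : c ≠ c' := by intro e; simp [e] at h
      intro e
      by_contra hc
      apply hne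
      simp only at e hc
      refine Prod.ext e ?_
      cases h1 : c.2 <;> cases h2 : c'.2 <;> simp_all

lemma trm_sum (z0 z1 z2 z3 : G) (T : Finset G) :
    ∑ g ∈ T, trm (g * z0) (g * z1) (g * z2) (g * z3) ≤ 12288 := by
  classical
  set W1 := (z0⁻¹ * z1).toWord with hW1
  set W2 := (z0⁻¹ * z2).toWord with hW2
  set W3 := (z0⁻¹ * z3).toWord with hW3
  set D := min (cp W1 W2) (min (cp W1 W3) (cp W2 W3)) with hD
  set L := max (cp W1 W2) (max (cp W1 W3) (cp W2 W3)) - D with hL
  let S := T.filter (fun g => Eqv (g * z1) (g * z2) ∧ Eqv (g * z2) (g * z3) ∧ ¬ Eqv (g * z0) (g * z1))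
  let tt : G → ℕ := fun g => (g * z0).toWord.length
  have key : ∀ g ∈ S, W1 = invRev (g * z0).toWord ++ (g * z1).toWord ∧
      W2 = invRev (g * z0).toWord ++ (g * z2).toWord ∧
      W3 = invRev (g * z0).toWord ++ (g * z3).toWord := by
    intro g hg
    obtain ⟨h12, h23, h01⟩ := (mem_filter.1 hg).2
    have h02 : ¬ Eqv (g * z0) (g * z2) := fun h => h01 (h.trans h12.symm)
    have h03 : ¬ Eqv (g * z0) (g * z3) := fun h => h02 (h.trans h23.symm)
    unfold Eqv at h01 h02 h03
    refine ⟨?_, ?_, ?_⟩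
    · rw [← toWord_inv_mul _ _ (by omega), hW1]; congr 1; group
    · rw [← toWord_inv_mul _ _ (by omega), hW2]; congr 1; group
    · rw [← toWord_inv_mul _ _ (by omega), hW3]; congr 1; group
  have hb : ∀ g ∈ S, tt g < D ∧ trm (g * z0) (g * z1) (g * z2) (g * z3) ≤
      12288 * ((L : ℝ) / (((D - 1 - tt g + 1 : ℕ) : ℝ) + L) ^ 2) := by
    intro g hg
    obtain ⟨k1, k2, k3⟩ := key g hg
    have hc := (mem_filter.1 hg).2
    obtain ⟨h12, h23, h01⟩ := hc
    have h13 := h12.trans h23
    have c12 : cp W1 W2 = tt g + cp (g * z1).toWord (g * z2).toWord := by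
      rw [k1, k2, cp_append, invRev_length]
    have c13 : cp W1 W3 = tt g + cp (g * z1).toWord (g * z3).toWord := by
      rw [k1, k3, cp_append, invRev_length]
    have c23 : cp W2 W3 = tt g + cp (g * z2).toWord (g * z3).toWord := by
      rw [k2, k3, cp_append, invRev_length]
    have e : trm (g * z0) (g * z1) (g * z2) (g * z3) = EG (g * z1) (g * z2) (g * z3) ^ 2 := by
      simp [trm, h12, h23, h01]
    unfold Eqv at h12 h23 h13
    refine ⟨by omega, ?_⟩
    rw [e]
    exact E_sq_le _ _ _ _ _ (by omega) (by omega) (by omega)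
  have hinj : Set.InjOn (fun g => D - 1 - tt g) S := by
    intro g hg g' hg' h
    have h1 := (hb g hg).1
    have h2 := (hb g' hg').1
    have ht : tt g = tt g' := by simp only at h; omega
    have k := (key g hg).1.symm.trans (key g' hg').1
    have k' := (List.append_inj k (by rw [invRev_length, invRev_length]; exact ht)).2
    exact mul_right_cancel (toWord_injective k')
  calc ∑ g ∈ T, trm (g * z0) (g * z1) (g * z2) (g * z3)
      = ∑ g ∈ S, trm (g * z0) (g * z1) (g * z2) (g * z3) := by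
        symm
        apply sum_filter_of_ne
        intro g _ hne
        by_contra hc
        exact hne (by unfold trm; rw [if_neg hc])
    _ ≤ ∑ g ∈ S, 12288 * ((L : ℝ) / (((D - 1 - tt g + 1 : ℕ) : ℝ) + L) ^ 2) :=
        sum_le_sum fun g hg => (hb g hg).2
    _ = ∑ t ∈ S.image (fun g => D - 1 - tt g),
          12288 * ((L : ℝ) / (((t + 1 : ℕ) : ℝ) + L) ^ 2) := by
        rw [sum_image hinj]
    _ ≤ ∑ t ∈ range D, 12288 * ((L : ℝ) / (((t + 1 : ℕ) : ℝ) + L) ^ 2) := by
        apply sum_le_sum_of_subset_of_nonneg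
        · intro t ht
          obtain ⟨g, hg, rfl⟩ := mem_image.1 ht
          have := (hb g hg).1
          exact mem_range.2 (by omega)
        · intro t _ _; positivity
    _ ≤ 12288 := by
        rw [← mul_sum]
        have h1 := sum_tel L D
        have h2 : (0 : ℝ) ≤ L / ((D : ℝ) + L) := by positivity
        nlinarith

lemma phi_sum (x0 x1 x2 x3 : G) (T : Finset G) :
    ∑ g ∈ T, phi (g * x0) (g * x1) (g * x2) (g * x3) ^ 2 ≤ 49152 := by
  refine (sum_le_sum fun g _ => phi_sq_le _ _ _ _).trans ?_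
  rw [sum_add_distrib, sum_add_distrib, sum_add_distrib]
  linarith [trm_sum x0 x1 x2 x3 T, trm_sum x1 x0 x2 x3 T, trm_sum x2 x0 x1 x3 T,
    trm_sum x3 x0 x1 x2 T]

end Pool.Agent.MP_181f73_al.H78
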