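import Mathlib

set_option autoImplicit false

namespace Pool.Agent.MP_181f73_al.H78

open Finset

abbrev Ltr := Fin 2 × Bool

/-- Common prefix length of two words. -/
def cp : List Ltr → List Ltr → ℕ
  | a :: y, b :: z => if a = b then cp y z + 1 else 0
  | [], _ => 0
  | _ :: _, [] => 0

@[simp] lemma cp_nil_left (z : List Ltr) : cp [] z = 0 := by simp [cp]
@[simp] lemma cp_nil_right (y : List Ltr) : cp y [] = 0 := by cases y <;> simp [cp]
lemma cp_cons (a b : Ltr) (y z : List Ltr) :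
    cp (a :: y) (b :: z) = if a = b then cp y z + 1 else 0 := by simp [cp]

lemma cp_comm : ∀ y z : List Ltr, cp y z = cp z y
  | [], z => by simp
  | _ :: _, [] => by simp
  | a :: y, b :: z => by
    rw [cp_cons, cp_cons, cp_comm y z]
    by_cases h : a = b
    · simp [h]
    · have h' : ¬ b = a := fun e => h e.symm
      simp [h, h']

lemma cp_ultra : ∀ y z w : List Ltr, min (cp y z) (cp z w) ≤ cp y w
  | [], z, w => by simp
  | _ :: _, [], w => by simp
  | _ :: _, _ :: _, [] => by simp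
  | a :: y, b :: z, c :: w => by
    have ih := cp_ultra y z w
    rw [cp_cons, cp_cons, cp_cons]
    by_cases h : a = b
    · by_cases h' : b = c
      · subst h; subst h'; simp only [if_true]; omega
      · simp [h']
    · simp [h]

lemma cp_append (s y z : List Ltr) : cp (s ++ y) (s ++ z) = s.length + cp y z := by
  induction s with
  | nil => simp
  | cons a s ih => simp only [List.cons_append, cp_cons, if_true, ih, List.length_cons]; omega

lemma cp_getElem? : ∀ (y z : List Ltr) (i : ℕ), i < cp y z → y[i]? = z[i]?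
  | [], z, i, h => by simp at h
  | _ :: _, [], i, h => by simp at h
  | a :: y, b :: z, i, h => by
    rw [cp_cons] at h
    by_cases hab : a = b
    · subst hab
      cases i with
      | zero => simp
      | succ i =>
        simp only [if_true] at h
        simpa using cp_getElem? y z i (by omega)
    · simp [hab] at h

/-- Height of the bump at depth `d`. -/
noncomputable def amp (d : ℕ) : ℝ :=
  max 0 ((4 : ℝ) ^ Nat.log 4 d - |(d : ℝ) - 2 * 4 ^ Nat.log 4 d|) / 8 ^ Nat.log 4 d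

/-- Indicator that the letter at index `4^(j+1) - 1` is the first generator. -/
noncomputable def eps (j : ℕ) (y : List Ltr) : ℝ :=
  if y[4 ^ (j + 1) - 1]? = some (0, true) then 1 else 0

noncomputable def F (d : ℕ) (y : List Ltr) : ℝ := amp d * eps (Nat.log 4 d) y

noncomputable def K (y z : List Ltr) : ℝ := F (cp y z) y - F (cp y z) z

noncomputable def E (y z w : List Ltr) : ℝ := K z w - K y w + K y z

lemma eps_nonneg (j : ℕ) (y : List Ltr) : 0 ≤ eps j y := by unfold eps; split_ifs <;> norm_num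
lemma eps_le (j : ℕ) (y : List Ltr) : eps j y ≤ 1 := by unfold eps; split_ifs <;> norm_num

lemma amp_nonneg (d : ℕ) : 0 ≤ amp d := by unfold amp; positivity

lemma amp_sq_le (d : ℕ) (hd : 1 ≤ d) : amp d ^ 2 ≤ 4 / d := by
  have h1 : d < 4 ^ (Nat.log 4 d + 1) := Nat.lt_pow_succ_log_self (by norm_num) d
  have h1' : (d : ℝ) ≤ 4 * 4 ^ Nat.log 4 d := by
    have : (d : ℝ) < 4 ^ (Nat.log 4 d + 1) := by exact_mod_cast h1
    rw [pow_succ] at this; linarith
  have h2 : amp d ≤ 4 ^ Nat.log 4 d / 8 ^ Nat.log 4 d := by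
    unfold amp
    apply div_le_div_of_nonneg_right _ (by positivity)
    apply max_le (by positivity)
    linarith [abs_nonneg ((d : ℝ) - 2 * 4 ^ Nat.log 4 d)]
  set j := Nat.log 4 d
  have h3 : ((4 : ℝ) ^ j / 8 ^ j) ^ 2 = 1 / 4 ^ j := by
    rw [div_pow, ← pow_mul, ← pow_mul, mul_comm j 2, pow_mul, pow_mul, div_eq_div_iff (by positivity) (by positivity), ← mul_pow]
    norm_num
  have hd' : (0 : ℝ) < d := by exact_mod_cast hd
  calc amp d ^ 2 ≤ ((4 : ℝ) ^ j / 8 ^ j) ^ 2 := pow_le_pow_left₀ (amp_nonneg d) h2 2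
    _ = 1 / 4 ^ j := h3
    _ ≤ 4 / d := by
      rw [div_le_div_iff₀ (by positivity) hd']; linarith

lemma amp_eq_zero (d j : ℕ) (h1 : 3 * 4 ^ j ≤ d) (h2 : d ≤ 4 ^ (j + 1)) : amp d = 0 := by
  rcases h2.lt_or_eq with h2 | h2
  · have hj : Nat.log 4 d = j := Nat.log_eq_of_pow_le_of_lt_pow (by omega) h2
    unfold amp
    rw [hj]
    have h1' : (3 : ℝ) * 4 ^ j ≤ d := by exact_mod_cast h1
    have : (4 : ℝ) ^ j - |(d : ℝ) - 2 * 4 ^ j| ≤ 0 := by
      have := le_abs_self ((d : ℝ) - 2 * 4 ^ j); linarith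
    rw [max_eq_left this, zero_div]
  · have hj : Nat.log 4 d = j + 1 := by rw [h2]; exact Nat.log_pow (by norm_num) _
    unfold amp
    rw [hj]
    have h2' : (d : ℝ) = 4 ^ (j + 1) := by exact_mod_cast h2
    have : (4 : ℝ) ^ (j + 1) - |(d : ℝ) - 2 * 4 ^ (j + 1)| ≤ 0 := by
      have := neg_abs_le ((d : ℝ) - 2 * 4 ^ (j + 1)); linarith
    rw [max_eq_left this, zero_div]

lemma F_step (e : ℕ) (he : 1 ≤ e) (y : List Ltr) :
    |F (e + 1) y - F e y| ≤ 1 / 8 ^ Nat.log 4 e := by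
  have h1 : e < 4 ^ (Nat.log 4 e + 1) := Nat.lt_pow_succ_log_self (by norm_num) e
  have h0 : 4 ^ Nat.log 4 e ≤ e := Nat.pow_log_le_self 4 (by omega)
  set j := Nat.log 4 e with hj
  have hp : 1 ≤ 4 ^ j := Nat.one_le_pow _ _ (by norm_num)
  rcases (Nat.succ_le_of_lt h1).lt_or_eq with h | h
  · have hj' : Nat.log 4 (e + 1) = j := Nat.log_eq_of_pow_le_of_lt_pow (by omega) h
    unfold F amp
    rw [hj', ← hj, ← sub_mul, ← sub_div, abs_mul, abs_div, abs_of_nonneg (eps_nonneg j y),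
      abs_of_pos (by positivity : (0 : ℝ) < 8 ^ j)]
    have h3 : |max 0 ((4 : ℝ) ^ j - |((e + 1 : ℕ) : ℝ) - 2 * 4 ^ j|) -
        max 0 ((4 : ℝ) ^ j - |(e : ℝ) - 2 * 4 ^ j|)| ≤ 1 := by
      refine (abs_max_sub_max_le_max _ _ _ _).trans ?_
      apply max_le (by simp)
      have := abs_abs_sub_abs_le_abs_sub ((e : ℝ) - 2 * 4 ^ j) (((e + 1 : ℕ) : ℝ) - 2 * 4 ^ j)
      have h4 : |(e : ℝ) - 2 * 4 ^ j - (((e + 1 : ℕ) : ℝ) - 2 * 4 ^ j)| = 1 := by
        push_cast; ring_nf; simp
      rw [h4] at this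
      calc _ = |(|(e : ℝ) - 2 * 4 ^ j| - |((e + 1 : ℕ) : ℝ) - 2 * 4 ^ j|)| := by congr 1; ring
        _ ≤ 1 := this
    exact (mul_le_mul (div_le_div_of_nonneg_right h3 (by positivity)) (eps_le j y)
      (eps_nonneg j y) (by positivity)).trans (mul_one _).le
  · have h5 : 4 ^ (j + 1) = 4 * 4 ^ j := by ring
    have a1 : amp (e + 1) = 0 := amp_eq_zero _ j (by omega) (by omega)
    have a2 : amp e = 0 := amp_eq_zero _ j (by omega) (by omega)
    unfold F
    rw [a1, a2]; simp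

lemma F_far (d : ℕ) (hd : 1 ≤ d) (y : List Ltr) (L : ℕ) :
    |F (d + L) y - F d y| ≤ L / 8 ^ Nat.log 4 d := by
  induction L with
  | zero => simp
  | succ L ih =>
    have h1 := F_step (d + L) (by omega) y
    have h2 : (1 : ℝ) / 8 ^ Nat.log 4 (d + L) ≤ 1 / 8 ^ Nat.log 4 d := by
      apply one_div_le_one_div_of_le (by positivity)
      exact pow_le_pow_right₀ (by norm_num) (Nat.log_mono_right (by omega))
    have h3 := abs_sub_le (F (d + L + 1) y) (F (d + L) y) (F d y)
    push_cast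
    rw [← add_assoc, add_div]
    linarith

lemma core (d L : ℕ) (hd : 1 ≤ d) (y z : List Ltr) (h : d + L ≤ cp y z) :
    ((F (d + L) y - F d y) - (F (d + L) z - F d z)) ^ 2 ≤ 12288 * (L / ((d : ℝ) + L) ^ 2) := by
  have hd' : (1 : ℝ) ≤ d := by exact_mod_cast hd
  have hL0 : (0 : ℝ) ≤ L := by positivity
  by_cases h3 : 3 * d ≤ L
  · have h0 : 4 ^ Nat.log 4 d ≤ d := Nat.pow_log_le_self 4 (by omega)
    have h5 : 4 ^ (Nat.log 4 d + 1) = 4 * 4 ^ Nat.log 4 d := by ring
    have e1 : F d y = F d z := by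
      unfold F eps
      rw [cp_getElem? y z _ (by omega)]
    have h3' : (3 : ℝ) * d ≤ L := by exact_mod_cast h3
    have e2 : (F (d + L) y - F d y) - (F (d + L) z - F d z) =
        amp (d + L) * (eps (Nat.log 4 (d + L)) y - eps (Nat.log 4 (d + L)) z) := by
      rw [e1]; unfold F; ring
    have e3 : (eps (Nat.log 4 (d + L)) y - eps (Nat.log 4 (d + L)) z) ^ 2 ≤ 1 := by
      have := eps_nonneg (Nat.log 4 (d + L)) y
      have := eps_nonneg (Nat.log 4 (d + L)) z
      have := eps_le (Nat.log 4 (d + L)) y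
      have := eps_le (Nat.log 4 (d + L)) z
      nlinarith
    have e4 := amp_sq_le (d + L) (by omega)
    push_cast at e4
    rw [e2, mul_pow]
    calc _ ≤ 4 / ((d : ℝ) + L) * 1 := mul_le_mul e4 e3 (by positivity) (by positivity)
      _ ≤ _ := by
        rw [mul_one, ← mul_div_assoc, div_le_div_iff₀ (by positivity) (by positivity)]
        have : (0 : ℝ) < d + L := by positivity
        nlinarith
  · have h3' : (L : ℝ) ≤ 3 * d := by exact_mod_cast (by omega : L ≤ 3 * d)
    have a1 := F_far d hd y L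
    have a2 := F_far d hd z L
    have h1 : d < 4 ^ (Nat.log 4 d + 1) := Nat.lt_pow_succ_log_self (by norm_num) d
    have h1' : (d : ℝ) ≤ 4 * 4 ^ Nat.log 4 d := by
      have : (d : ℝ) < 4 ^ (Nat.log 4 d + 1) := by exact_mod_cast h1
      rw [pow_succ] at this; linarith
    set j := Nat.log 4 d
    have a3 : |(F (d + L) y - F d y) - (F (d + L) z - F d z)| ≤ 2 * (L / 8 ^ j) := by
      have := abs_sub (F (d + L) y - F d y) (F (d + L) z - F d z)
      linarith
    have a4 : ((8 : ℝ) ^ j) ^ 2 = (4 ^ j) ^ 3 := by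
      rw [← pow_mul, ← pow_mul, mul_comm j 2, mul_comm j 3, pow_mul, pow_mul]; norm_num
    have a5 : ((F (d + L) y - F d y) - (F (d + L) z - F d z)) ^ 2 ≤ (2 * (L / 8 ^ j)) ^ 2 := by
      rw [← sq_abs]; exact pow_le_pow_left₀ (abs_nonneg _) a3 2
    refine a5.trans ?_
    rw [mul_pow, div_pow, a4, ← mul_div_assoc, ← mul_div_assoc,
      div_le_div_iff₀ (by positivity) (by positivity)]
    have b1 : ((d : ℝ) + L) ^ 2 ≤ (4 * d) ^ 2 := pow_le_pow_left₀ (by positivity) (by linarith) 2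
    have b2 : (d : ℝ) ^ 3 ≤ (4 * 4 ^ j) ^ 3 := pow_le_pow_left₀ (by positivity) h1' 3
    calc (2 : ℝ) ^ 2 * (L : ℝ) ^ 2 * ((d : ℝ) + L) ^ 2
        = 4 * (L : ℝ) * ((L : ℝ) * ((d : ℝ) + L) ^ 2) := by ring
      _ ≤ 4 * (L : ℝ) * (3 * (d : ℝ) * (4 * (d : ℝ)) ^ 2) := by gcongr
      _ = 192 * (L : ℝ) * (d : ℝ) ^ 3 := by ring
      _ ≤ 192 * (L : ℝ) * (4 * (4 : ℝ) ^ j) ^ 3 := by gcongr
      _ = _ := by ring

lemma K_comm (y z : List Ltr) : K y z = - K z y := by unfold K; rw [cp_comm y z]; ring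

/-- Pointwise bound in terms of the smallest common prefix `d` and the spread `L`. -/
lemma E_sq_le (y z w : List Ltr) (d L : ℕ) (hd : 1 ≤ d)
    (hmin : min (cp y z) (min (cp y w) (cp z w)) = d)
    (hmax : max (cp y z) (max (cp y w) (cp z w)) = d + L) :
    E y z w ^ 2 ≤ 12288 * (L / ((d : ℝ) + L) ^ 2) := by
  have u1 := cp_ultra y z w
  have u2 := cp_ultra y w z
  have u3 := cp_ultra z y w
  rw [cp_comm w z] at u2
  rw [cp_comm z y] at u3
  have : (cp y z = d + L ∧ cp y w = d ∧ cp z w = d) ∨ (cp y z = d ∧ cp y w = d + L ∧ cp z w = d) ∨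
      (cp y z = d ∧ cp y w = d ∧ cp z w = d + L) := by omega
  rcases this with ⟨h1, h2, h3⟩ | ⟨h1, h2, h3⟩ | ⟨h1, h2, h3⟩
  · have := core d L hd y z h1.ge
    unfold E K; rw [h1, h2, h3]; convert this using 2; ring
  · have := core d L hd w y (by rw [cp_comm]; exact h2.ge)
    unfold E K; rw [h1, h2, h3]; convert this using 2; ring
  · have := core d L hd z w h3.ge
    unfold E K; rw [h1, h2, h3]; convert this using 2; ring

lemma sum_tel (L D : ℕ) : ∑ t ∈ range D, (L : ℝ) / (((t + 1 : ℕ) : ℝ) + L) ^ 2 ≤ 1 - L / ((D : ℝ) + L) := by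
  induction D with
  | zero =>
    rcases Nat.eq_zero_or_pos L with h | h
    · simp [h]
    · have : (L : ℝ) ≠ 0 := by positivity
      simp [this]
  | succ D ih =>
    rw [sum_range_succ]
    rcases Nat.eq_zero_or_pos L with h | h
    · simp [h]
    · have hL : (0 : ℝ) < L := by exact_mod_cast h
      have : (L : ℝ) / (((D + 1 : ℕ) : ℝ) + L) ^ 2 ≤ L / ((D : ℝ) + L) - L / (((D + 1 : ℕ) : ℝ) + L) := by
        push_cast
        rw [div_sub_div _ _ (by positivity) (by positivity), div_le_div_iff₀ (by positivity) (by positivity)]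
        have : (0 : ℝ) ≤ D := by positivity
        nlinarith [mul_pos hL hL, mul_nonneg this hL.le]
      linarith

end Pool.Agent.MP_181f73_al.H78
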